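import Pool.Agent.helper67.TPD.Spec

/-!
# Project tpd, row KY1: the relation for one pair which is not bad
-/

set_option autoImplicit false

open Finset PowerSeries

noncomputable section

namespace Pool.Agent.TPD

open Pool.Agent.EP Pool.Agent.PQ

theorem KY1_pow (b : ℕ) (hb : b % 2 = 1) (hb3 : 3 ≤ b) : 2 ^ b % 24 = 8 := by
  obtain ⟨c, rfl⟩ : ∃ c, b = 2 * c + 3 := ⟨(b - 3) / 2, by omega⟩
  clear hb hb3
  induction c with
  | zero => norm_num
  | succ c ih =>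
    have h1 : 2 ^ (2 * (c + 1) + 3) = 4 * 2 ^ (2 * c + 3) := by
      rw [show 2 * (c + 1) + 3 = 2 * c + 3 + 2 by ring, pow_add]
      ring
    rw [h1]
    omega

theorem KY1_sq (u : ℕ) (hu : u.Coprime 6) : u ^ 2 % 24 = 1 := by
  have h2 : ¬ 2 ∣ u := by
    intro h
    have := Nat.eq_one_of_dvd_coprimes hu h (by norm_num)
    omega
  have h3 : ¬ 3 ∣ u := by
    intro h
    have := Nat.eq_one_of_dvd_coprimes hu h (by norm_num)
    omega
  have h4 : u % 24 = 1 ∨ u % 24 = 5 ∨ u % 24 = 7 ∨ u % 24 = 11 ∨ u % 24 = 13 ∨ u % 24 = 17 ∨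
      u % 24 = 19 ∨ u % 24 = 23 := by omega
  rw [Nat.pow_mod]
  rcases h4 with h | h | h | h | h | h | h | h <;> rw [h]

theorem KY1_bu (b u : ℕ) (hb : b % 2 = 1) (hb3 : 3 ≤ b) (hu : u.Coprime 6) : (2 ^ b * u ^ 2) % 24 = 8 := by
  rw [Nat.mul_mod, KY1_pow b hb hb3, KY1_sq u hu]

/-- The value of `ac` at `24 n - 1`. -/
theorem KY1_ac (N n : ℕ) (h : 24 * n = N + 1) : ac (N : ℤ) = pp n := by
  unfold ac
  have h1 : (N : ℤ) % 24 = 23 ∧ -1 ≤ (N : ℤ) := by omega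
  rw [if_pos h1]
  have h2 : (((N : ℤ) + 1) / 24).toNat = n := by omega
  rw [h2]

theorem KY1 (hSUMP : SUMP_stmt) : KY1_stmt := by
  intro b A C P R ρ φ hb hb3 hP hR hAP hCR hAdd hbad hA hC
  unfold Bad at hbad
  push Not at hbad
  obtain ⟨hex, hrel⟩ := hbad
  have hS := hSUMP b A C P R hb hP hR (by omega) (by omega) hex hA hC
  unfold ExcP at hex
  push Not at hex
  obtain ⟨-, hx2, hx3⟩ := hex
  rw [← hS]
  congr 1
  · refine Finset.sum_congr rfl fun u hu => ?_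
    unfold uB at hu
    rw [Finset.mem_filter] at hu
    obtain ⟨-, hu6, hule⟩ := hu
    have h8 := KY1_bu b u hb hb3 hu6
    have hlt : 2 ^ b * u ^ 2 < C * R := by omega
    obtain ⟨D, hD⟩ : ∃ D, D = C * R - 2 ^ b * u ^ 2 := ⟨_, rfl⟩
    have hDm : D % 24 = 17 := by omega
    have hcop : Nat.Coprime (A * P) D := by
      rw [hD]
      exact Nat.Coprime.mul_left (hA u hlt) ((Nat.Prime.coprime_iff_not_dvd hP).2 (hx2 u hlt))
    have hN : (A * P * D) % 24 = 23 := by rw [Nat.mul_mod, hAP, hDm]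
    obtain ⟨n, hn⟩ : ∃ n, 24 * n = A * P * D + 1 := ⟨(A * P * D + 1) / 24, by omega⟩
    have hn2 : (A * P * D + 1) / 24 = n := by omega
    have hn3 : 24 * n - 1 = A * P * D := by omega
    have h1 := hrel n ⟨u, Or.inl ⟨hlt, by rw [hn, hD]⟩⟩
    rw [← hD, KY1_ac _ n hn, h1, hn3, hn2, hAdd _ _ hcop, add_assoc]
  · refine Finset.sum_congr rfl fun u hu => ?_
    unfold uB at hu
    rw [Finset.mem_filter] at hu
    obtain ⟨-, hu6, hule⟩ := hu
    have h8 := KY1_bu b u hb hb3 hu6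
    have hlt : 2 ^ b * u ^ 2 < A * P := by omega
    obtain ⟨D, hD⟩ : ∃ D, D = A * P - 2 ^ b * u ^ 2 := ⟨_, rfl⟩
    have hDm : D % 24 = 23 := by omega
    have hcop : Nat.Coprime D (C * R) := by
      rw [hD]
      exact Nat.Coprime.mul_right (hC u hlt) ((Nat.Prime.coprime_iff_not_dvd hR).2 (hx3 u hlt)).symm
    have hN : (D * (C * R)) % 24 = 23 := by rw [Nat.mul_mod, hCR, hDm]
    obtain ⟨n, hn⟩ : ∃ n, 24 * n = D * (C * R) + 1 := ⟨(D * (C * R) + 1) / 24, by omega⟩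
    have hn2 : (D * (C * R) + 1) / 24 = n := by omega
    have hn3 : 24 * n - 1 = D * (C * R) := by omega
    have h1 := hrel n ⟨u, Or.inr ⟨hlt, by rw [hn, hD]⟩⟩
    rw [← hD, KY1_ac _ n hn, h1, hn3, hn2, hAdd _ _ hcop, add_assoc]

end Pool.Agent.TPD
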